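import Pool.Agent.H7.RCQ.Com
import Pool.Agent.H6.RCQ.Stmts2

set_option autoImplicit false

namespace Pool.Agent.H7.RCQ.AE

open Pool.Agent.H39.RC Pool.Agent.H6.RCQ Pool.Agent.H7.RCQ
open Classical

theorem aE (h6 : PE6Stmt) (h7 : PE7Stmt) (hAB : ABStmt) (hAS : ASStmt) : AEStmt := by
  intro V G p lab R x y hC Z hZ hlab
  have hG := hC.cfg.pg
  obtain ⟨-, -, -, -, -, -, hp⟩ := hAS V G p lab R x y hC
  have hZA : ∀ s ∈ Z, s ∈ CN G R x y := by
    intro s hs
    rcases hZ with h | h
    · exact (Finset.mem_sdiff.mp (h hs)).1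
    · exact h.1 hs
  have hR : ∀ s ∈ Z, s ∈ R := fun s hs => (Finset.mem_filter.mp (hZA s hs)).1
  have hx : ∀ s ∈ Z, G.Adj x s := fun s hs => (Finset.mem_filter.mp (hZA s hs)).2.1
  have hy : ∀ s ∈ Z, G.Adj y s := fun s hs => (Finset.mem_filter.mp (hZA s hs)).2.2
  -- links avoid `x` and `y`
  have lk : ∀ s ∈ Z, ∀ t ∈ Z, s ≠ t → G.Adj s t ∨ ∃ w, w ≠ x ∧ w ≠ y ∧ G.Adj w s ∧ G.Adj w t := by
    intro s hs t ht hst
    rcases hC.cfg.lk s (hR s hs) t (hR t ht) hst with h | ⟨w, -, h1, h2, h3⟩
    · exact Or.inl h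
    · refine Or.inr ⟨w, ?_, ?_, h1, h2⟩
      · rintro rfl
        exact h3 (hlab s hs t ht).1
      · rintro rfl
        exact h3 (hlab s hs t ht).2
  rcases hZ with hZ | ⟨hZ, h6'⟩
  · obtain ⟨hB, hE⟩ := hAB V G p lab R x y hC
    have h2 := hC.two
    obtain ⟨b, hb⟩ : (PB G R x y).Nonempty := Finset.card_pos.mp (by omega)
    obtain ⟨e, he⟩ : (PB G R y x).Nonempty := Finset.card_pos.mp (by omega)
    obtain ⟨hbR, hxb, hyb, hby⟩ := Finset.mem_filter.mp hb
    obtain ⟨heR, hye, hxe, hex⟩ := Finset.mem_filter.mp he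
    have hbX : b ∉ XX {x} {y} (CN G R x y) := by
      rintro ((h | h) | h)
      · exact hxb.ne (Set.mem_singleton_iff.mp h).symm
      · exact hby (Set.mem_singleton_iff.mp h)
      · exact hyb (Finset.mem_filter.mp (Finset.mem_coe.mp h)).2.2
    have heX : e ∉ XX {x} {y} (CN G R x y) := by
      rintro ((h | h) | h)
      · exact hex (Set.mem_singleton_iff.mp h)
      · exact hye.ne (Set.mem_singleton_iff.mp h).symm
      · exact hxe (Finset.mem_filter.mp (Finset.mem_coe.mp h)).2.1
    have hbe : b ≠ e := by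
      rintro rfl
      exact hxe hxb
    -- far vertices
    have far1 : ∀ s ∈ Z, ∀ w, (w ∈ PB G R x y ∨ w ∈ PB G R y x) → ¬ At G R x y w s := by
      intro s hs w hw hws
      exact (Finset.mem_sdiff.mp (hZ hs)).2 (Finset.mem_filter.mpr
        ⟨hZA s hs, Or.inl (Finset.mem_filter.mpr ⟨hZA s hs, w, hw, hws⟩)⟩)
    have far2 : ∀ s ∈ Z, ∀ h ∈ CN G R x y, At G R x y b h → ¬ G.Adj s h := by
      intro s hs h hh hbh hsh
      exact (Finset.mem_sdiff.mp (hZ hs)).2 (Finset.mem_filter.mpr
        ⟨hZA s hs, Or.inr ⟨h, Finset.mem_filter.mpr ⟨hh, b, Or.inl hb, hbh⟩, hsh⟩⟩)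
    obtain ⟨K, cK, bK, xK, yK, sK, wK⟩ : ∃ K : Set V, Con G K ∧ b ∈ K ∧ x ∉ K ∧
        (∃ z ∈ K, G.Adj y z) ∧ (∀ s ∈ Z, s ∉ K) ∧ (∀ s ∈ Z, ∀ w ∈ K, ¬ G.Adj w s) := by
      rcases hC.cfg.lk b hbR e heR hbe with h | ⟨h, -, h1, h2', -⟩
      · refine ⟨{b, e}, con_pair (Or.inr h), by simp, ?_, ⟨e, by simp, hye⟩, ?_, ?_⟩
        · rintro (h | h)
          · exact hxb.ne h
          · exact hex (Set.mem_singleton_iff.mp h).symm
        · rintro s hs (h | h)
          · exact hyb (h ▸ hy s hs)
          · exact hxe (Set.mem_singleton_iff.mp h ▸ hx s hs)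
        · rintro s hs w (h | h) hws
          · rw [h] at hws
            exact far1 s hs b (Or.inl hb) (lnk_adj hbX hws)
          · rw [Set.mem_singleton_iff.mp h] at hws
            exact far1 s hs e (Or.inr he) (lnk_adj heX hws)
      · have hhx : h ≠ x := by
          rintro rfl
          exact hxe h2'
        have hhy : h ≠ y := by
          rintro rfl
          exact hyb h1
        refine ⟨insert b {h, e}, (con_pair (Or.inr h2')).insert (Set.mem_insert _ _) h1,
          Set.mem_insert _ _, ?_, ⟨e, by simp, hye⟩, ?_, ?_⟩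
        · rintro (h' | h' | h')
          · exact hxb.ne h'
          · exact hhx h'.symm
          · exact hex (Set.mem_singleton_iff.mp h').symm
        · rintro s hs (h' | h' | h')
          · exact hyb (h' ▸ hy s hs)
          · exact far1 s hs b (Or.inl hb) (lnk_adj hbX (h' ▸ h1.symm))
          · exact hxe (Set.mem_singleton_iff.mp h' ▸ hx s hs)
        · rintro s hs w (h' | h' | h') hws
          · rw [h'] at hws
            exact far1 s hs b (Or.inl hb) (lnk_adj hbX hws)
          · rw [h'] at hws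
            by_cases hhA : h ∈ CN G R x y
            · exact far2 s hs h hhA (lnk_adj hbX h1.symm) hws.symm
            · have hhX : h ∉ XX {x} {y} (CN G R x y) := by
                rintro ((h' | h') | h')
                · exact hhx (Set.mem_singleton_iff.mp h')
                · exact hhy (Set.mem_singleton_iff.mp h')
                · exact hhA (Finset.mem_coe.mp h')
              exact far1 s hs b (Or.inl hb) (lnk_cons hbX h1.symm (lnk_adj hhX hws))
          · rw [Set.mem_singleton_iff.mp h'] at hws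
            exact far1 s hs e (Or.inr he) (lnk_adj heX hws)
    obtain ⟨z, hz, hyz⟩ := yK
    have hpol : Pol G {x} (insert y K) Z := by
      refine ⟨con_single x, cK.insert hz hyz.symm, ?_, ?_, ?_, ?_, ?_⟩
      · rw [Set.disjoint_singleton_left]
        rintro (h | h)
        · exact hC.ne h
        · exact xK h
      · intro s hs h
        exact (hx s hs).ne (Set.mem_singleton_iff.mp h).symm
      · rintro s hs (h | h)
        · exact (hy s hs).ne h.symm
        · exact sK s hs h
      · intro s hs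
        exact ⟨x, rfl, hx s hs⟩
      · intro s hs
        exact ⟨y, Set.mem_insert _ _, hy s hs⟩
    refine (h6 V G {x} (insert y K) Z hG hpol ⟨x, rfl, b, Set.mem_insert_of_mem _ bK, hxb⟩ ?_).1
    intro s hs t ht hst
    rcases lk s hs t ht hst with h | ⟨w, wx, wy, hws, hwt⟩
    · exact Or.inl h
    · refine Or.inr ⟨w, ?_, hws.symm, hwt⟩
      rintro (h | h | h)
      · exact wx (Set.mem_singleton_iff.mp h)
      · exact wy h
      · exact wK s hs w h hws
  · refine h7 V G {x} {y} (CN G R x y) Z hG hp h6' hZ ?_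
    intro s hs t ht hst
    rcases lk s hs t ht hst with h | ⟨w, wx, wy, hws, hwt⟩
    · exact Or.inl h
    · refine Or.inr ⟨w, ?_, hws.symm, hwt⟩
      rintro (h | h)
      · exact wx (Set.mem_singleton_iff.mp h)
      · exact wy (Set.mem_singleton_iff.mp h)

end Pool.Agent.H7.RCQ.AE
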