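import Pool.Agent.H7.RCQ.Com
import Pool.Agent.H6.RCQ.Stmts2

set_option autoImplicit false

namespace Pool.Agent.H7.RCQ.AT

open Pool.Agent.H39.RC Pool.Agent.H6.RCQ Pool.Agent.H7.RCQ
open Classical

theorem aT (hAZ : AZStmt) (hAS : ASStmt) (hAL : ALStmt) (h1 : PE1Stmt) (h2 : PE2Stmt) :
    ATStmt := by
  intro V G p lab R x y hC
  have hG := hC.cfg.pg
  obtain ⟨-, -, -, -, -, -, hp⟩ := hAS V G p lab R x y hC
  set A := CN G R x y with hA
  set X := XX {x} {y} A with hX
  have hAt : ∀ w a, At G R x y w a ↔ Lnk G X w a := fun w a => Iff.rfl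
  have F1 : ∀ w a1 a2 a3, a1 ∈ A → a2 ∈ A → a3 ∈ A → a1 ≠ a2 → a1 ≠ a3 → a2 ≠ a3 →
      At G R x y w a1 → At G R x y w a2 → At G R x y w a3 → False :=
    fun w a1 a2 a3 m1 m2 m3 n12 n13 n23 l1 l2 l3 =>
      h1 V G {x} {y} A hG hp w a1 a2 a3 m1 m2 m3 n12 n13 n23 l1 l2 l3
  have F2 : ∀ w a a', a ∈ A → a' ∈ A → a ≠ a' → At G R x y w a → At G R x y w a' →
      EJ G {x} {y} A a a' := fun w a a' m m' n l l' => ⟨m, m', n, Or.inr ⟨w, l, l'⟩⟩
  have hPPA : ∀ a ∈ PP G R x y, a ∈ A := fun a ha => (Finset.mem_filter.mp ha).1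
  have hNNA : ∀ a ∈ NN G R x y, a ∈ A := fun a ha => (Finset.mem_filter.mp ha).1
  rcases Finset.eq_empty_or_nonempty (PP G R x y) with he | hne
  · left
    have hN : NN G R x y = ∅ := by
      rw [NN, Finset.filter_eq_empty_iff]
      rintro a ha (h | ⟨a', h, -⟩)
      · rw [he] at h
        exact absurd h (Finset.notMem_empty _)
      · rw [he] at h
        exact absurd h (Finset.notMem_empty _)
    rw [TyI, he, hN]
    simp
  obtain ⟨z, hz, hzat⟩ := hAZ V G p lab R x y hC hne
  have esym : ∀ {s t : V}, EJ G {x} {y} A s t → EJ G {x} {y} A t s := by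
    rintro s t ⟨ms, mt, n, h⟩
    refine ⟨mt, ms, n.symm, ?_⟩
    rcases h with h | ⟨v, l1, l2⟩
    · exact Or.inl h.symm
    · exact Or.inr ⟨v, l2, l1⟩
  set N : V → Finset V := fun s => A.filter (fun t => EJ G {x} {y} A s t) with hN
  have memN : ∀ {s t : V}, EJ G {x} {y} A s t → t ∈ N s := fun h =>
    Finset.mem_filter.mpr ⟨h.2.1, h⟩
  have cN : ∀ s, (N s).card ≤ 2 := by
    intro s
    by_contra hcon
    obtain ⟨a, ma, b, mb, c, mc, nab, nac, nbc⟩ := Finset.two_lt_card.mp (not_le.mp hcon)
    exact h2 V G {x} {y} A hG hp s a b c (Finset.mem_filter.mp ma).2 (Finset.mem_filter.mp mb).2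
      (Finset.mem_filter.mp mc).2 nab nac nbc
  have hzPP : z ∈ PP G R x y := by
    obtain ⟨a, ha⟩ := hne
    obtain ⟨-, w, hw, -⟩ := Finset.mem_filter.mp ha
    exact Finset.mem_filter.mpr ⟨hz, w, hw, hzat w hw⟩
  have hPPz : ∀ a ∈ PP G R x y, a ≠ z → EJ G {x} {y} A z a := by
    intro a ha hne'
    obtain ⟨-, w, hw, hwa⟩ := Finset.mem_filter.mp ha
    exact F2 w z a hz (hPPA a ha) hne'.symm (hzat w hw) hwa
  have hNN : ∀ a ∈ NN G R x y, a ∈ PP G R x y ∨ ∃ a' ∈ PP G R x y, a ∈ N a' := by
    intro a ha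
    obtain ⟨haA, h⟩ := Finset.mem_filter.mp ha
    rcases h with h | ⟨a', h, hadj⟩
    · exact Or.inl h
    · exact Or.inr ⟨a', h, memN ⟨hPPA a' h, haA, hadj.ne', Or.inl hadj.symm⟩⟩
  have c3 : (PP G R x y).card ≤ 3 := by
    have : PP G R x y ⊆ insert z (N z) := by
      intro a ha
      rw [Finset.mem_insert]
      by_cases h : a = z
      · exact Or.inl h
      · exact Or.inr (memN (hPPz a ha h))
    exact (Finset.card_le_card this).trans ((Finset.card_insert_le _ _).trans
      (Nat.succ_le_succ (cN z)))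
  have c0 : 0 < (PP G R x y).card := Finset.card_pos.mpr hne
  obtain hc | hc | hc : (PP G R x y).card = 1 ∨ (PP G R x y).card = 2 ∨
      (PP G R x y).card = 3 := by omega
  · left
    obtain ⟨w, hw⟩ := Finset.card_eq_one.mp hc
    have hwz : w = z := by
      rw [hw, Finset.mem_singleton] at hzPP
      exact hzPP.symm
    subst hwz
    have : NN G R x y ⊆ insert w (N w) := by
      intro a ha
      rw [Finset.mem_insert]
      rcases hNN a ha with h | ⟨a', h, h'⟩
      · rw [hw, Finset.mem_singleton] at h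
        exact Or.inl h
      · rw [hw, Finset.mem_singleton] at h
        exact Or.inr (h ▸ h')
    have c : (NN G R x y).card ≤ 3 := (Finset.card_le_card this).trans
      ((Finset.card_insert_le _ _).trans (Nat.succ_le_succ (cN w)))
    exact ⟨by omega, by omega, fun _ => c⟩
  · left
    obtain ⟨u, v, huv, hw⟩ := Finset.card_eq_two.mp hc
    obtain ⟨a, hza, hw⟩ : ∃ a, z ≠ a ∧ PP G R x y = {z, a} := by
      rw [hw, Finset.mem_insert, Finset.mem_singleton] at hzPP
      rcases hzPP with rfl | rfl
      · exact ⟨v, huv, hw⟩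
      · exact ⟨u, huv.symm, by rw [hw, Finset.pair_comm]⟩
    have haPP : a ∈ PP G R x y := by rw [hw]; simp
    have hE := hPPz a haPP hza.symm
    have : NN G R x y ⊆ N z ∪ N a := by
      intro t ht
      rw [Finset.mem_union]
      rcases hNN t ht with h | ⟨a', h, h'⟩
      · rw [hw, Finset.mem_insert, Finset.mem_singleton] at h
        rcases h with rfl | rfl
        · exact Or.inr (memN (esym hE))
        · exact Or.inl (memN hE)
      · rw [hw, Finset.mem_insert, Finset.mem_singleton] at h
        rcases h with rfl | rfl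
        · exact Or.inl h'
        · exact Or.inr h'
    have c : (NN G R x y).card ≤ 4 := (Finset.card_le_card this).trans
      ((Finset.card_union_le _ _).trans (by have := cN z; have := cN a; omega))
    exact ⟨by omega, c, fun h => absurd h (by omega)⟩
  · right
    obtain ⟨a1, a3, n1, n3, n13, hw⟩ : ∃ a1 a3, a1 ≠ z ∧ z ≠ a3 ∧ a1 ≠ a3 ∧
        PP G R x y = {a1, z, a3} := by
      obtain ⟨u, v, w, huv, huw, hvw, hw⟩ := Finset.card_eq_three.mp hc
      rw [hw] at hzPP
      simp only [Finset.mem_insert, Finset.mem_singleton] at hzPP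
      rcases hzPP with rfl | rfl | rfl
      · refine ⟨v, w, huv.symm, huw, hvw, ?_⟩
        rw [hw]
        ext t
        simp only [Finset.mem_insert, Finset.mem_singleton]
        tauto
      · exact ⟨u, w, huv, hvw, huw, hw⟩
      · refine ⟨u, v, huw, hvw.symm, huv, ?_⟩
        rw [hw]
        ext t
        simp only [Finset.mem_insert, Finset.mem_singleton]
        tauto
    have m1 : a1 ∈ PP G R x y := by rw [hw]; simp
    have m3 : a3 ∈ PP G R x y := by rw [hw]; simp
    have E1 := hPPz a1 m1 n1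
    have E3 := hPPz a3 m3 n3.symm
    have hNz : N z = {a1, a3} := by
      symm
      refine Finset.eq_of_subset_of_card_le ?_ ?_
      · intro t ht
        rw [Finset.mem_insert, Finset.mem_singleton] at ht
        rcases ht with rfl | rfl
        · exact memN E1
        · exact memN E3
      · rw [Finset.card_pair n13]
        exact cN z
    have sub : NN G R x y ⊆ {a1, a3} ∪ (N a1 ∪ N a3) := by
      intro t ht
      rw [Finset.mem_union, Finset.mem_union]
      rcases hNN t ht with h | ⟨a', h, h'⟩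
      · rw [hw] at h
        simp only [Finset.mem_insert, Finset.mem_singleton] at h
        rcases h with rfl | rfl | rfl
        · exact Or.inl (by simp)
        · exact Or.inr (Or.inl (memN (esym E1)))
        · exact Or.inl (by simp)
      · rw [hw] at h
        simp only [Finset.mem_insert, Finset.mem_singleton] at h
        rcases h with rfl | rfl | rfl
        · exact Or.inr (Or.inl h')
        · rw [hNz] at h'
          exact Or.inl h'
        · exact Or.inr (Or.inr h')
    have hU : (N a1 ∪ N a3).card ≤ 3 := by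
      have h := Finset.card_union_add_card_inter (N a1) (N a3)
      have hi : 0 < (N a1 ∩ N a3).card := Finset.card_pos.mpr
        ⟨z, Finset.mem_inter.mpr ⟨memN (esym E1), memN (esym E3)⟩⟩
      have := cN a1
      have := cN a3
      omega
    have c : (NN G R x y).card ≤ 5 := by
      have h := (Finset.card_le_card sub).trans (Finset.card_union_le _ _)
      rw [Finset.card_pair n13] at h
      omega
    refine ⟨c, a1, z, a3, hw, n1, n13, n3, esym E1, E3, ?_, ?_⟩
    · intro w hw'
      refine ⟨hzat w hw', ?_⟩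
      rintro ⟨l1, l3⟩
      exact F1 w a1 z a3 (hPPA _ m1) hz (hPPA _ m3) n1 n13 n3 l1 (hzat w hw') l3
    · by_contra hcon
      push Not at hcon
      obtain ⟨⟨b0, hb0, nb0⟩, e0, he0, ne0⟩ := hcon
      have inPP : ∀ w, (w ∈ PB G R x y ∨ w ∈ PB G R y x) → ∀ a ∈ A, At G R x y w a →
          a = a1 ∨ a = z ∨ a = a3 := by
        intro w hw' a ha hwa
        have : a ∈ PP G R x y := Finset.mem_filter.mpr ⟨ha, w, hw', hwa⟩
        rw [hw] at this
        simpa using this
      -- same attachments
      have same : ∀ w w', (w ∈ PB G R x y ∨ w ∈ PB G R y x) → (w' ∈ PB G R x y ∨ w' ∈ PB G R y x) →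
          ∀ h ∈ A, h ≠ z → At G R x y w h → At G R x y w' h → ∀ a ∈ A,
          At G R x y w a → At G R x y w' a := by
        intro w w' hw' hw'' h hh hhz l l' a ha la
        by_cases haz : a = z
        · rw [haz]
          exact hzat w' hw''
        · by_cases hah : a = h
          · rw [hah]
            exact l'
          · exact absurd (F1 w a h z ha hh hz hah haz hhz la l (hzat w hw')) id
      have P1 : ∀ e ∈ PB G R y x, ∀ a ∈ A, At G R x y e a → At G R x y b0 a := by
        intro e he a ha hea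
        rcases hAL V G p lab R x y hC b0 hb0 e he with h | ⟨h, hh, hbh, -, l, l'⟩
        · exact (h a).mpr hea
        · exact same e b0 (Or.inr he) (Or.inl hb0) h hh (fun e' => nb0 (e' ▸ hbh)) l' l a ha hea
      have P2 : ∀ b ∈ PB G R x y, ∀ a ∈ A, At G R x y b a → At G R x y e0 a := by
        intro b hb a ha hba
        rcases hAL V G p lab R x y hC b hb e0 he0 with h | ⟨h, hh, -, hhe, l, l'⟩
        · exact (h a).mp hba
        · exact same b e0 (Or.inl hb) (Or.inr he0) h hh (fun e' => ne0 (e' ▸ hhe.symm)) l l' a ha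
            hba
      have P3 : ∀ a ∈ PP G R x y, At G R x y b0 a := by
        intro a ha
        obtain ⟨haA, w, hw' | hw', hwa⟩ := Finset.mem_filter.mp ha
        · exact P1 e0 he0 a haA (P2 w hw' a haA hwa)
        · exact P1 w hw' a haA hwa
      exact F1 b0 a1 z a3 (hPPA _ m1) hz (hPPA _ m3) n1 n13 n3 (P3 _ m1) (P3 _ hzPP) (P3 _ m3)

end Pool.Agent.H7.RCQ.AT
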