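import Pool.Agent.H7.RCQ.Com

set_option autoImplicit false

namespace Pool.Agent.H7.RCQ.DOM

open Pool.Agent.H39.RC Pool.Agent.H6.RCQ Pool.Agent.H7.RCQ
open Classical

theorem dom (h1 : PE1Stmt) : DOMStmt := by
  intro V G P Q S hG hp hS r hr hl
  set X := XX P Q S with hX
  have SX : ∀ s ∈ S, s ∈ X := fun s hs => Or.inr (Finset.mem_coe.mpr hs)
  set S0 := S.filter (fun s => Lnk G X r s) with hS0
  have c0 : S0.card ≤ 2 := by
    by_contra hcon
    obtain ⟨a, ma, b, mb, c, mc, nab, nac, nbc⟩ := Finset.two_lt_card.mp (not_le.mp hcon)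
    rw [hS0, Finset.mem_filter] at ma mb mc
    exact h1 V G P Q S hG hp r a b c ma.1 mb.1 mc.1 nab nac nbc ma.2 mb.2 mc.2
  have mid : ∀ s ∈ S \ S0, ∃ h ∈ S0, G.Adj h s := by
    intro s hs
    rw [Finset.mem_sdiff] at hs
    have hn : ¬ Lnk G X r s := fun h => hs.2 (Finset.mem_filter.mpr ⟨hs.1, h⟩)
    rcases hl s hs.1 with h | ⟨x, hx, hrx, hxs⟩
    · exact absurd (lnk_adj hr h) hn
    · by_cases hxX : x ∈ X
      · rcases hxX with (h | h) | h
        · exact absurd (Or.inl h) hx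
        · exact absurd (Or.inr h) hx
        · exact ⟨x, Finset.mem_filter.mpr ⟨Finset.mem_coe.mp h, lnk_adj hr hrx⟩, hxs⟩
      · exact absurd (lnk_cons hr hrx (lnk_adj hxX hxs)) hn
  have c1 : 3 ≤ (S \ S0).card := by
    have := Finset.card_sdiff_add_card_eq_card (Finset.filter_subset (fun s => Lnk G X r s) S)
    rw [← hS0] at this
    omega
  choose! f hf hfa using mid
  obtain ⟨s1, m1, s2, m2, n12, e12⟩ := Finset.exists_ne_map_eq_of_card_lt_of_maps_to
    (s := S \ S0) (t := S0) (f := f) (by omega) (fun s hs => hf s hs)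
  have hh := hf s1 m1
  set h := f s1 with hh'
  have hhS := (Finset.mem_filter.mp hh).1
  have a1 := hfa s1 m1
  have a2 := hfa s2 m2
  rw [← hh'] at a1
  rw [← e12] at a2
  by_cases hex : ∃ h' ∈ S0, h' ≠ h
  · obtain ⟨h', mh', nh'⟩ := hex
    obtain ⟨Z1, v1, k1, x1, z1, q1, b1⟩ := (Finset.mem_filter.mp hh).2
    obtain ⟨Z2, v2, k2, x2, z2, q2, b2⟩ := (Finset.mem_filter.mp mh').2
    have sub : ∀ z ∈ insert h (Z1 ∪ Z2), z = h ∨ z ∉ X := by
      rintro z (rfl | hz | hz)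
      · exact Or.inl rfl
      · exact Or.inr (x1 z hz)
      · exact Or.inr (x2 z hz)
    have out : ∀ t ∈ S, t ≠ h → t ∉ insert h (Z1 ∪ Z2) := by
      intro t ht hne hmem
      rcases sub t hmem with e | e
      · exact hne e
      · exact e (SX t ht)
    have ns : ∀ s ∈ S \ S0, ∀ t ∈ S0, s ≠ t := by
      rintro s hs t ht rfl
      exact (Finset.mem_sdiff.mp hs).2 ht
    refine pol3 hG hp (T := insert h (Z1 ∪ Z2)) ((k1.union k2 v1 v2).insert (Or.inl q1) b1) ?_ ?_
      (Finset.mem_sdiff.mp m1).1 (Finset.mem_sdiff.mp m2).1 (Finset.mem_filter.mp mh').1 n12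
      (ns _ m1 _ mh') (ns _ m2 _ mh') (out _ (Finset.mem_sdiff.mp m1).1 (ns _ m1 _ hh))
      (out _ (Finset.mem_sdiff.mp m2).1 (ns _ m2 _ hh)) (out _ (Finset.mem_filter.mp mh').1 nh')
      ⟨h, Set.mem_insert _ _, a1⟩ ⟨h, Set.mem_insert _ _, a2⟩
      ⟨z2, Or.inr (Or.inr q2), b2⟩
    · intro z hz
      rcases sub z hz with e | e
      · rw [e]
        exact hp.oP _ hhS
      · exact XX_P e
    · intro z hz
      rcases sub z hz with e | e
      · rw [e]
        exact hp.oQ _ hhS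
      · exact XX_Q e
  · push Not at hex
    obtain ⟨s3, m3, n3⟩ : ∃ s3 ∈ S \ S0, s3 ∉ ({s1, s2} : Finset V) := by
      refine Finset.exists_mem_notMem_of_card_lt_card ?_
      have := Finset.card_le_two (a := s1) (b := s2)
      omega
    simp only [Finset.mem_insert, Finset.mem_singleton, not_or] at n3
    have e3 := hex _ (hf s3 m3)
    have a3 := hfa s3 m3
    rw [e3] at a3
    have o : ∀ {s : V}, G.Adj h s → s ∉ ({h} : Set V) := by
      intro s hs hm
      rw [Set.mem_singleton_iff] at hm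
      exact hs.ne hm.symm
    refine pol3 hG hp (T := {h}) (con_single h) ?_ ?_ (Finset.mem_sdiff.mp m1).1
      (Finset.mem_sdiff.mp m2).1 (Finset.mem_sdiff.mp m3).1 n12 (Ne.symm n3.1) (Ne.symm n3.2)
      (o a1) (o a2) (o a3) ⟨h, rfl, a1⟩ ⟨h, rfl, a2⟩ ⟨h, rfl, a3⟩
    · rintro z rfl
      exact hp.oP _ hhS
    · rintro z rfl
      exact hp.oQ _ hhS

end Pool.Agent.H7.RCQ.DOM
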