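import Pool.Agent.H6.RCQ.Stmts3

set_option autoImplicit false

namespace Pool.Agent.H7.RCQ.E7

open Pool.Agent.H39.RC Pool.Agent.H6.RCQ
open Classical

variable {V : Type} {G : SimpleGraph V}

lemma cc_le (R : Finset V) (x z : V) : (CC G R x z).card ≤ (CN G R x z).card + 1 := by
  have : CC G R x z ⊆ insert z (CN G R x z) := by
    intro t ht
    simp only [CC, Finset.mem_filter] at ht
    simp only [Finset.mem_insert, CN, Finset.mem_filter]
    rcases ht with ⟨h1, h2, h3 | h3⟩
    · exact Or.inl h3
    · exact Or.inr ⟨h1, h2, h3⟩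
  exact (Finset.card_le_card this).trans (Finset.card_insert_le _ _)

lemma cc_le' (R : Finset V) (x z : V) (h : ¬ (z ∈ R ∧ G.Adj x z)) :
    (CC G R x z).card ≤ (CN G R x z).card := by
  refine Finset.card_le_card ?_
  intro t ht
  simp only [CC, Finset.mem_filter] at ht
  simp only [CN, Finset.mem_filter]
  rcases ht with ⟨h1, h2, h3 | h3⟩
  · subst h3
    exact absurd ⟨h1, h2⟩ h
  · exact ⟨h1, h2, h3⟩

lemma cov_card (R : Finset V) (x z z' : V)
    (h : ∀ s ∈ D G R x, s ∈ CC G R x z ∨ s ∈ CC G R x z') :
    (D G R x).card ≤ (CC G R x z).card + (CC G R x z').card := by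
  have : D G R x ⊆ CC G R x z ∪ CC G R x z' := fun s hs => Finset.mem_union.mpr (h s hs)
  exact (Finset.card_le_card this).trans (Finset.card_union_le _ _)

lemma cov_eq (R : Finset V) (x z z' : V) (hz : z = z')
    (h : ∀ s ∈ D G R x, s ∈ CC G R x z ∨ s ∈ CC G R x z') :
    (D G R x).card ≤ (CC G R x z).card := by
  subst hz
  have : D G R x ⊆ CC G R x z := fun s hs => (h s hs).elim id id
  exact Finset.card_le_card this

theorem e7 (hB10 : B10Stmt) (hGC : GCStmt) (hLF : LFStmt) (h10 : E10Stmt) (h9 : E9Stmt)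
    (h8A : E8AStmt) (h8B : E8BStmt) (h4N : R4NStmt) (h3N : R3NStmt) (h3E : R3EStmt) :
    E7Stmt := by
  intro V G lab R hcb
  have lf : Lf G R := hLF V G 2 lab R hcb.cfg
  have c16 : R.card = 16 := by
    rw [hcb.card]
    norm_num
  have l16 : L16 G R := ⟨lf, c16, hcb.co⟩
  have key : ∀ x, 1 ≤ (D G R x).card → ∃ z z', z ≠ x ∧ z' ≠ x ∧
      ∀ s ∈ D G R x, s ∈ CC G R x z ∨ s ∈ CC G R x z' := by
    intro x hx
    exact hGC V G R x lf (Finset.card_pos.mp hx) (hB10 V G 2 lab R hcb x).2
  have D10 : DegLe G R 10 := fun x => (hB10 V G 2 lab R hcb x).1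
  have D9 : DegLe G R 9 := by
    intro x
    by_contra hx
    have hx10 : (D G R x).card = 10 := by have := D10 x; omega
    obtain ⟨z, z', hz, hz', hc⟩ := key x (by omega)
    have e := cov_card R x z z' hc
    have f := cc_le (G := G) R x z
    have f' := cc_le (G := G) R x z'
    have g := hcb.co x z hz.symm
    have g' := hcb.co x z' hz'.symm
    have hne : z ≠ z' := fun hh => by
      have := cov_eq R x z z' hh hc
      omega
    have m : z ∈ R ∧ G.Adj x z := by
      by_contra hh
      have := cc_le' (G := G) R x z hh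
      omega
    have m' : z' ∈ R ∧ G.Adj x z' := by
      by_contra hh
      have := cc_le' (G := G) R x z' hh
      omega
    exact h10 V G R x z z' l16 D10 hx10 m.2 m'.2 m.1 m'.1 hne (by omega) (by omega) hc
  have D8 : DegLe G R 8 := by
    intro x
    by_contra hx
    have hx9 : (D G R x).card = 9 := by have := D9 x; omega
    obtain ⟨z, z', hz, hz', hc⟩ := key x (by omega)
    have e := cov_card R x z z' hc
    have f := cc_le (G := G) R x z
    have f' := cc_le (G := G) R x z'
    have g := hcb.co x z hz.symm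
    have g' := hcb.co x z' hz'.symm
    by_cases h5 : (CC G R x z).card = 5
    · have m : z ∈ R ∧ G.Adj x z := by
        by_contra hh
        have := cc_le' (G := G) R x z hh
        omega
      exact h9 V G R x z l16 D9 hx9 m.2 m.1 (by omega)
    · have m : z' ∈ R ∧ G.Adj x z' := by
        by_contra hh
        have := cc_le' (G := G) R x z' hh
        omega
      exact h9 V G R x z' l16 D9 hx9 m.2 m.1 (by omega)
  have D7 : DegLe G R 7 := by
    intro x
    by_contra hx
    have hx8 : (D G R x).card = 8 := by have := D8 x; omega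
    obtain ⟨z, z', hz, hz', hc⟩ := key x (by omega)
    have e := cov_card R x z z' hc
    have f := cc_le (G := G) R x z
    have f' := cc_le (G := G) R x z'
    have g := hcb.co x z hz.symm
    have g' := hcb.co x z' hz'.symm
    have q : (CN G R x z).card ≠ 4 := fun hh => h8A V G R x z l16 D8 hx8 hz.symm hh
    have q' : (CN G R x z').card ≠ 4 := fun hh => h8A V G R x z' l16 D8 hx8 hz'.symm hh
    have hne : z ≠ z' := fun hh => by
      have := cov_eq R x z z' hh hc
      omega
    have m : z ∈ R ∧ G.Adj x z := by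
      by_contra hh
      have := cc_le' (G := G) R x z hh
      omega
    have m' : z' ∈ R ∧ G.Adj x z' := by
      by_contra hh
      have := cc_le' (G := G) R x z' hh
      omega
    exact h8B V G lab R x z z' hcb.cfg ⟨l16, D8, hx8, m.2, m'.2, m.1, m'.1, hne, by omega,
      by omega, hc⟩
  have one : ∀ x z, (D G R x).card = 7 → z ≠ x → 4 ≤ (CC G R x z).card →
      x ∉ R ∧ ∃ a ∈ R, (D G R a).card = 7 := by
    intro x z hx7 hz hcc
    have f := cc_le (G := G) R x z
    have g := hcb.co x z hz.symm
    have dz := D7 z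
    have q : (CN G R x z).card ≠ 4 := by
      intro hh
      have := (h4N V G R x z 7 lf hcb.co hz.symm hh D7).1 le_rfl hx7
      omega
    have m : z ∈ R ∧ G.Adj x z := by
      by_contra hh
      have := cc_le' (G := G) R x z hh
      omega
    have c3 : (CN G R x z).card = 3 := by omega
    refine ⟨?_, h3E V G R x z 7 lf (by norm_num) m.2 m.1 c3 D7 (by omega)⟩
    intro hxR
    have : ir R x = 1 := by simp [ir, hxR]
    rcases h3N V G R x z 7 lf m.2 m.1 c3 D7 with h | h <;> omega
  have two : ∀ x, (D G R x).card = 7 → x ∉ R ∧ ∃ a ∈ R, (D G R a).card = 7 := by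
    intro x hx7
    obtain ⟨z, z', hz, hz', hc⟩ := key x (by omega)
    have e := cov_card R x z z' hc
    by_cases h4 : 4 ≤ (CC G R x z).card
    · exact one x z hx7 hz h4
    · exact one x z' hx7 hz' (by omega)
  intro x
  by_contra hx
  have hx7 : (D G R x).card = 7 := by have := D7 x; omega
  obtain ⟨-, a, ha, ha7⟩ := two x hx7
  exact (two a ha7).1 ha

end Pool.Agent.H7.RCQ.E7
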