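import Pool.Agent.H6.RCQ.Stmts3

set_option autoImplicit false

namespace Pool.Agent.H7.RCQ.E8B

open Pool.Agent.H39.RC Pool.Agent.H6.RCQ
open Classical

lemma t8_symm {V : Type} {G : SimpleGraph V} {R : Finset V} {x c c' : V} (h : T8 G R x c c') :
    T8 G R x c' c :=
  ⟨h.l, h.deg, h.dx, h.ac', h.ac, h.mc', h.mc, h.ne.symm, h.n', h.n,
    fun s hs => (h.cov s hs).symm⟩

theorem e8b (hA : T8AStmt) (hB : T8BStmt) (hC : T8CStmt) : E8BStmt := by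
  intro V G lab R x c c' hcf h
  obtain ⟨-, -, -, -, a1, a2, a3, e1, n12, n13, n23, a23, ua, k3, ka⟩ := hA V G R x c c' h
  obtain ⟨-, -, -, -, b1, b2, b3, f1, m12, m13, m23, b23, ub, l3, lb⟩ :=
    hA V G R x c' c (t8_symm h)
  have ma2 : a2 ∈ CN G R x c := by rw [e1]; simp
  have ma3 : a3 ∈ CN G R x c := by rw [e1]; simp
  have mb2 : b2 ∈ CN G R x c' := by rw [f1]; simp
  have mb3 : b3 ∈ CN G R x c' := by rw [f1]; simp
  rcases lb with ⟨b21, l1⟩ | nb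
  · rcases ka with ⟨a21, k1⟩ | na
    · exact hC V G lab R x c c' a1 a2 a3 b1 b2 b3 hcf h e1 n12 n13 n23 a23 a21 ua
        (fun w hw => ⟨k3 w hw, k1 w hw⟩) f1 m12 m13 m23 b23 b21 ub
        (fun w hw => ⟨l3 w hw, l1 w hw⟩)
    · exact hB V G R x c' c b2 b3 a1 a2 a3 (t8_symm h) mb2 mb3 b23 ub e1 n12 n13 n23 a23 na ua
  · exact hB V G R x c c' a2 a3 b1 b2 b3 h ma2 ma3 a23 ua f1 m12 m13 m23 b23 nb ub

end Pool.Agent.H7.RCQ.E8B
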