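import Pool.Agent.H7.RCQ.Com

set_option autoImplicit false

namespace Pool.Agent.H7.RCQ.PE2

open Pool.Agent.H39.RC Pool.Agent.H6.RCQ Pool.Agent.H7.RCQ

theorem pe2 : PE2Stmt := by
  intro V G P Q S hG hp s t1 t2 t3 h1 h2 h3 n12 n13 n23
  obtain ⟨Z1, c1⟩ := EJ.cn h1
  obtain ⟨Z2, c2⟩ := EJ.cn h2
  obtain ⟨Z3, c3⟩ := EJ.cn h3
  have hs := h1.1
  have sub : ∀ z ∈ insert s Z1 ∪ insert s Z2 ∪ insert s Z3, z = s ∨ z ∉ XX P Q S := by
    rintro z (((rfl | h) | (rfl | h)) | (rfl | h))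
    · exact Or.inl rfl
    · exact Or.inr (c1.1 z h)
    · exact Or.inl rfl
    · exact Or.inr (c2.1 z h)
    · exact Or.inl rfl
    · exact Or.inr (c3.1 z h)
  have out : ∀ t ∈ S, s ≠ t → t ∉ insert s Z1 ∪ insert s Z2 ∪ insert s Z3 := by
    intro t ht hst hmem
    rcases sub t hmem with h | h
    · exact hst h.symm
    · exact h (Or.inr (Finset.mem_coe.mpr ht))
  refine pol3 hG hp (T := insert s Z1 ∪ insert s Z2 ∪ insert s Z3)
    ((c1.con.union c2.con (Set.mem_insert _ _) (Set.mem_insert _ _)).union c3.con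
      (Or.inl (Set.mem_insert _ _)) (Set.mem_insert _ _)) ?_ ?_ h1.2.1 h2.2.1 h3.2.1 n12 n13 n23
    (out _ h1.2.1 h1.2.2.1) (out _ h2.2.1 h2.2.2.1) (out _ h3.2.1 h3.2.2.1) ?_ ?_ ?_
  · intro z hz
    rcases sub z hz with rfl | h
    · exact hp.oP _ hs
    · exact XX_P h
  · intro z hz
    rcases sub z hz with rfl | h
    · exact hp.oQ _ hs
    · exact XX_Q h
  · obtain ⟨z, hz, a⟩ := c1.adj
    exact ⟨z, Or.inl (Or.inl hz), a⟩
  · obtain ⟨z, hz, a⟩ := c2.adj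
    exact ⟨z, Or.inl (Or.inr hz), a⟩
  · obtain ⟨z, hz, a⟩ := c3.adj
    exact ⟨z, Or.inr hz, a⟩

end Pool.Agent.H7.RCQ.PE2
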