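import Pool.Agent.H7.RCQ.Com

set_option autoImplicit false

namespace Pool.Agent.H7.RCQ.PE3

open Pool.Agent.H39.RC Pool.Agent.H6.RCQ Pool.Agent.H7.RCQ
open Classical

theorem pe3 (h1 : PE1Stmt) : PE3Stmt := by
  intro V G P Q S hG hp hc s1 s2 s3 e12 e23 e31
  obtain ⟨Z1, c1⟩ := EJ.cn e12
  obtain ⟨Z2, c2⟩ := EJ.cn e23
  obtain ⟨Z3, c3⟩ := EJ.cn e31
  have m1 := e12.1
  have m2 := e23.1
  have m3 := e31.1
  have n12 := e12.2.2.1
  have n23 := e23.2.2.1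
  have n31 := e31.2.2.1
  have SX : ∀ s ∈ S, s ∈ XX P Q S := fun s hs => Or.inr (Finset.mem_coe.mpr hs)
  -- the connecting sets are disjoint
  have q12 : Disjoint Z1 Z2 := Set.disjoint_left.mpr fun z hz hz' =>
    h1 V G P Q S hG hp z s1 s2 s3 m1 m2 m3 n12 n31.symm n23 (c1.lnk hz).1 (c1.lnk hz).2
      (c2.lnk hz').2
  have q13 : Disjoint Z1 Z3 := Set.disjoint_left.mpr fun z hz hz' =>
    h1 V G P Q S hG hp z s1 s2 s3 m1 m2 m3 n12 n31.symm n23 (c1.lnk hz).1 (c1.lnk hz).2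
      (c3.lnk hz').1
  have q23 : Disjoint Z2 Z3 := Set.disjoint_left.mpr fun z hz hz' =>
    h1 V G P Q S hG hp z s1 s2 s3 m1 m2 m3 n12 n31.symm n23 (c3.lnk hz').2 (c2.lnk hz).1
      (c2.lnk hz).2
  have dd : ∀ {s t : V} {Z W : Set V}, s ∈ S → t ∈ S → s ≠ t → (∀ z ∈ Z, z ∉ XX P Q S) →
      (∀ z ∈ W, z ∉ XX P Q S) → Disjoint Z W → Disjoint (insert s Z) (insert t W) := by
    intro s t Z W hs ht hst hZ hW hd
    rw [Set.disjoint_left]
    rintro z (rfl | hz) (rfl | hz')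
    · exact hst rfl
    · exact hW z hz' (SX z hs)
    · exact hZ z hz (SX z ht)
    · exact Set.disjoint_left.mp hd hz hz'
  have D12 := dd m1 m2 n12 c1.1 c2.1 q12
  have D13 := dd m1 m3 n31.symm c1.1 c3.1 q13
  have D23 := dd m2 m3 n23 c2.1 c3.1 q23
  have DP : ∀ {s : V} {Z : Set V}, s ∈ S → (∀ z ∈ Z, z ∉ XX P Q S) → Disjoint P (insert s Z) := by
    intro s Z hs hZ
    rw [Set.disjoint_left]
    rintro z hz (rfl | hz')
    · exact hp.oP _ hs hz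
    · exact XX_P (hZ z hz') hz
  have DQ : ∀ {s : V} {Z : Set V}, s ∈ S → (∀ z ∈ Z, z ∉ XX P Q S) → Disjoint Q (insert s Z) := by
    intro s Z hs hZ
    rw [Set.disjoint_left]
    rintro z hz (rfl | hz')
    · exact hp.oQ _ hs hz
    · exact XX_Q (hZ z hz') hz
  have AP : ∀ {s : V} {Z : Set V}, s ∈ S → SA G P (insert s Z) := by
    intro s Z hs
    obtain ⟨z, hz, a⟩ := hp.aP s hs
    exact ⟨z, hz, s, Set.mem_insert _ _, a⟩
  have AQ : ∀ {s : V} {Z : Set V}, s ∈ S → SA G Q (insert s Z) := by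
    intro s Z hs
    obtain ⟨z, hz, a⟩ := hp.aQ s hs
    exact ⟨z, hz, s, Set.mem_insert _ _, a⟩
  have g12 : SA G (insert s1 Z1) (insert s2 Z2) := by
    obtain ⟨z, hz, a⟩ := c1.adj
    exact ⟨z, hz, s2, Set.mem_insert _ _, a⟩
  have g23 : SA G (insert s2 Z2) (insert s3 Z3) := by
    obtain ⟨z, hz, a⟩ := c2.adj
    exact ⟨z, hz, s3, Set.mem_insert _ _, a⟩
  have g13 : SA G (insert s1 Z1) (insert s3 Z3) := by
    obtain ⟨z, hz, a⟩ := c3.adj
    exact ⟨s1, Set.mem_insert _ _, z, hz, a.symm⟩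
  rcases hc with ⟨a, ha, b, hb, hab⟩ | hc
  · exact K5 hG hp.cP hp.cQ c1.con c2.con c3.con hp.dis (DP m1 c1.1) (DP m2 c2.1) (DP m3 c3.1)
      (DQ m1 c1.1) (DQ m2 c2.1) (DQ m3 c3.1) D12 D13 D23 ⟨a, ha, b, hb, hab⟩ (AP m1) (AP m2)
      (AP m3) (AQ m1) (AQ m2) (AQ m3) g12 g13 g23
  · obtain ⟨s, hs, hn⟩ : ∃ s ∈ S, s ∉ ({s1, s2, s3} : Finset V) := by
      refine Finset.exists_mem_notMem_of_card_lt_card ?_
      have := Finset.card_le_three (a := s1) (b := s2) (c := s3)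
      omega
    simp only [Finset.mem_insert, Finset.mem_singleton, not_or] at hn
    obtain ⟨w, hw, aw⟩ := hp.aQ s hs
    obtain ⟨w', hw', aw'⟩ := hp.aP s hs
    have DQ' : ∀ {t : V} {Z : Set V}, t ∈ S → s ≠ t → (∀ z ∈ Z, z ∉ XX P Q S) →
        Disjoint (insert s Q) (insert t Z) := by
      intro t Z ht hst hZ
      rw [Set.disjoint_left]
      rintro z (rfl | hz) (rfl | hz')
      · exact hst rfl
      · exact hZ z hz' (SX z hs)
      · exact hp.oQ _ ht hz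
      · exact XX_Q (hZ z hz') hz
    have dPQ : Disjoint P (insert s Q) := by
      rw [Set.disjoint_left]
      rintro z hz (rfl | hz')
      · exact hp.oP _ hs hz
      · exact Set.disjoint_left.mp hp.dis hz hz'
    exact K5 hG hp.cP (hp.cQ.insert hw aw) c1.con c2.con c3.con dPQ (DP m1 c1.1)
      (DP m2 c2.1) (DP m3 c3.1) (DQ' m1 hn.1 c1.1) (DQ' m2 hn.2.1 c2.1) (DQ' m3 hn.2.2 c3.1)
      D12 D13 D23 ⟨w', hw', s, Set.mem_insert _ _, aw'⟩ (AP m1) (AP m2) (AP m3)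
      ((AQ m1).mono (Set.subset_insert _ _) subset_rfl)
      ((AQ m2).mono (Set.subset_insert _ _) subset_rfl)
      ((AQ m3).mono (Set.subset_insert _ _) subset_rfl) g12 g13 g23

end Pool.Agent.H7.RCQ.PE3
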