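import Pool.Agent.H6.RCQ.Stmts1

/-!
# Project RCQ: helper lemmas (explicit forms of the two forbidden minors, poles)
-/

set_option autoImplicit false

namespace Pool.Agent.H7.RCQ

open Pool.Agent.H39.RC Pool.Agent.H6.RCQ
open Classical

variable {V : Type} {G : SimpleGraph V}

/-- adjacent sets -/
def SA (G : SimpleGraph V) (A B : Set V) : Prop := ∃ x ∈ A, ∃ y ∈ B, G.Adj x y

lemma SA.symm {A B : Set V} (h : SA G A B) : SA G B A := by
  obtain ⟨x, hx, y, hy, a⟩ := h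
  exact ⟨y, hy, x, hx, a.symm⟩

lemma SA.mono {A B A' B' : Set V} (h : SA G A B) (h1 : A ⊆ A') (h2 : B ⊆ B') : SA G A' B' := by
  obtain ⟨x, hx, y, hy, a⟩ := h
  exact ⟨x, h1 hx, y, h2 hy, a⟩

/-- no `K₃,₃` minor with explicit branch sets -/
lemma K33 (hG : PG G) {A1 A2 A3 C1 C2 C3 : Set V} (a1 : Con G A1) (a2 : Con G A2)
    (a3 : Con G A3) (c1 : Con G C1) (c2 : Con G C2) (c3 : Con G C3)
    (d12 : Disjoint A1 A2) (d13 : Disjoint A1 A3) (d23 : Disjoint A2 A3)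
    (e12 : Disjoint C1 C2) (e13 : Disjoint C1 C3) (e23 : Disjoint C2 C3)
    (f11 : Disjoint A1 C1) (f12 : Disjoint A1 C2) (f13 : Disjoint A1 C3)
    (f21 : Disjoint A2 C1) (f22 : Disjoint A2 C2) (f23 : Disjoint A2 C3)
    (f31 : Disjoint A3 C1) (f32 : Disjoint A3 C2) (f33 : Disjoint A3 C3)
    (g11 : SA G A1 C1) (g12 : SA G A1 C2) (g13 : SA G A1 C3)
    (g21 : SA G A2 C1) (g22 : SA G A2 C2) (g23 : SA G A2 C3)
    (g31 : SA G A3 C1) (g32 : SA G A3 C2) (g33 : SA G A3 C3) : False := by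
  apply hG.k33
  refine hasMinor_k33 ![A1, A2, A3] ![C1, C2, C3] ?_ ?_ ?_ ?_ ?_ ?_
  · intro i
    fin_cases i
    · exact a1
    · exact a2
    · exact a3
  · intro i
    fin_cases i
    · exact c1
    · exact c2
    · exact c3
  · intro i j hij
    fin_cases i <;> fin_cases j <;> first | (exact absurd hij (by decide)) | assumption
  · intro i j hij
    fin_cases i <;> fin_cases j <;> first | (exact absurd hij (by decide)) | assumption
  · intro i j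
    fin_cases i <;> fin_cases j <;> assumption
  · intro i j
    fin_cases i <;> fin_cases j <;> assumption

/-- no `K₅` minor with explicit branch sets -/
lemma K5 (hG : PG G) {A1 A2 A3 A4 A5 : Set V} (a1 : Con G A1) (a2 : Con G A2)
    (a3 : Con G A3) (a4 : Con G A4) (a5 : Con G A5)
    (d12 : Disjoint A1 A2) (d13 : Disjoint A1 A3) (d14 : Disjoint A1 A4) (d15 : Disjoint A1 A5)
    (d23 : Disjoint A2 A3) (d24 : Disjoint A2 A4) (d25 : Disjoint A2 A5)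
    (d34 : Disjoint A3 A4) (d35 : Disjoint A3 A5) (d45 : Disjoint A4 A5)
    (g12 : SA G A1 A2) (g13 : SA G A1 A3) (g14 : SA G A1 A4) (g15 : SA G A1 A5)
    (g23 : SA G A2 A3) (g24 : SA G A2 A4) (g25 : SA G A2 A5)
    (g34 : SA G A3 A4) (g35 : SA G A3 A5) (g45 : SA G A4 A5) : False := by
  apply hG.k5
  refine hasMinor_k5 ![A1, A2, A3, A4, A5] ?_ ?_ ?_
  · intro i
    fin_cases i
    · exact a1
    · exact a2
    · exact a3
    · exact a4
    · exact a5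
  · intro i j hij
    fin_cases i <;> fin_cases j <;> first | (exact absurd hij (by decide)) | assumption
  · intro i j hij
    fin_cases i <;> fin_cases j <;> first | (exact absurd hij (by decide)) | assumption

lemma XX_P {P Q : Set V} {S : Finset V} {z : V} (h : z ∉ XX P Q S) : z ∉ P :=
  fun hz => h (Or.inl (Or.inl hz))

lemma XX_Q {P Q : Set V} {S : Finset V} {z : V} (h : z ∉ XX P Q S) : z ∉ Q :=
  fun hz => h (Or.inl (Or.inr hz))

lemma XX_S {P Q : Set V} {S : Finset V} {z : V} (h : z ∉ XX P Q S) : z ∉ S :=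
  fun hz => h (Or.inr (Finset.mem_coe.mpr hz))

/-- a third connected set is not adjacent to three common neighbours of the poles -/
lemma pol3 (hG : PG G) {P Q T : Set V} {S : Finset V} (hp : Pol G P Q S) (cT : Con G T)
    (oP : ∀ z ∈ T, z ∉ P) (oQ : ∀ z ∈ T, z ∉ Q) {t1 t2 t3 : V} (m1 : t1 ∈ S) (m2 : t2 ∈ S)
    (m3 : t3 ∈ S) (n12 : t1 ≠ t2) (n13 : t1 ≠ t3) (n23 : t2 ≠ t3) (o1 : t1 ∉ T) (o2 : t2 ∉ T)
    (o3 : t3 ∉ T) (h1 : ∃ z ∈ T, G.Adj z t1) (h2 : ∃ z ∈ T, G.Adj z t2)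
    (h3 : ∃ z ∈ T, G.Adj z t3) : False := by
  have dP : Disjoint P T := Set.disjoint_left.mpr fun z hz hz' => oP z hz' hz
  have dQ : Disjoint Q T := Set.disjoint_left.mpr fun z hz hz' => oQ z hz' hz
  have sg : ∀ {A : Set V} {t : V}, (∃ z ∈ A, G.Adj z t) → SA G A {t} := by
    rintro A t ⟨z, hz, a⟩
    exact ⟨z, hz, t, rfl, a⟩
  exact K33 hG hp.cP hp.cQ cT (con_single t1) (con_single t2) (con_single t3) hp.dis dP dQ
    (Set.disjoint_singleton.mpr n12) (Set.disjoint_singleton.mpr n13)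
    (Set.disjoint_singleton.mpr n23)
    (Set.disjoint_singleton_right.mpr (hp.oP _ m1)) (Set.disjoint_singleton_right.mpr (hp.oP _ m2))
    (Set.disjoint_singleton_right.mpr (hp.oP _ m3))
    (Set.disjoint_singleton_right.mpr (hp.oQ _ m1)) (Set.disjoint_singleton_right.mpr (hp.oQ _ m2))
    (Set.disjoint_singleton_right.mpr (hp.oQ _ m3))
    (Set.disjoint_singleton_right.mpr o1) (Set.disjoint_singleton_right.mpr o2)
    (Set.disjoint_singleton_right.mpr o3)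
    (sg (hp.aP _ m1)) (sg (hp.aP _ m2)) (sg (hp.aP _ m3))
    (sg (hp.aQ _ m1)) (sg (hp.aQ _ m2)) (sg (hp.aQ _ m3)) (sg h1) (sg h2) (sg h3)

/-- a connecting set for `s` and `t` -/
def Cn (G : SimpleGraph V) (X : Set V) (s t : V) (Z : Set V) : Prop :=
  (∀ z ∈ Z, z ∉ X) ∧ ((Z = ∅ ∧ G.Adj s t) ∨
    (Con G Z ∧ (∃ z ∈ Z, G.Adj z s) ∧ ∃ z ∈ Z, G.Adj z t))

lemma EJ.cn {P Q : Set V} {S : Finset V} {s t : V} (h : EJ G P Q S s t) :
    ∃ Z, Cn G (XX P Q S) s t Z := by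
  obtain ⟨-, -, -, h | ⟨v, ⟨Z1, v1, k1, x1, z1, m1, e1⟩, Z2, v2, k2, x2, z2, m2, e2⟩⟩ := h
  · exact ⟨∅, by simp, Or.inl ⟨rfl, h⟩⟩
  · refine ⟨Z1 ∪ Z2, ?_, Or.inr ⟨k1.union k2 v1 v2, ⟨z1, Or.inl m1, e1⟩, ⟨z2, Or.inr m2, e2⟩⟩⟩
    rintro z (hz | hz)
    · exact x1 z hz
    · exact x2 z hz

lemma Cn.con {X : Set V} {s t : V} {Z : Set V} (h : Cn G X s t Z) : Con G (insert s Z) := by
  rcases h.2 with ⟨rfl, -⟩ | ⟨c, ⟨z, hz, a⟩, -⟩
  · rw [insert_empty_eq]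
    exact con_single s
  · exact c.insert hz a

lemma Cn.adj {X : Set V} {s t : V} {Z : Set V} (h : Cn G X s t Z) :
    ∃ z ∈ insert s Z, G.Adj z t := by
  rcases h.2 with ⟨-, a⟩ | ⟨-, -, ⟨z, hz, a⟩⟩
  · exact ⟨s, Set.mem_insert _ _, a⟩
  · exact ⟨z, Set.mem_insert_of_mem _ hz, a⟩

/-- a member of a connecting set is linked to both ends -/
lemma Cn.lnk {X : Set V} {s t : V} {Z : Set V} (h : Cn G X s t Z) {z : V} (hz : z ∈ Z) :
    Lnk G X z s ∧ Lnk G X z t := by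
  rcases h.2 with ⟨rfl, -⟩ | ⟨c, hs, ht⟩
  · exact absurd hz (Set.notMem_empty z)
  · exact ⟨⟨Z, hz, c, h.1, hs⟩, ⟨Z, hz, c, h.1, ht⟩⟩

end Pool.Agent.H7.RCQ
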