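import Pool.Agent.H7.RCQ.Com
import Pool.Agent.H6.RCQ.Util

set_option autoImplicit false

namespace Pool.Agent.H7.RCQ.PE4

open Pool.Agent.H39.RC Pool.Agent.H6.RCQ Pool.Agent.H7.RCQ
open Classical

/-- `s4` and the connecting set of an `EJ` pair `s3`, `s4` link `s4` to `s3` after the removal of
`s4` from the set of common neighbours -/
lemma lk4 {V : Type} {G : SimpleGraph V} {P Q : Set V} {S : Finset V} {s3 s4 : V}
    (hp : Pol G P Q S) (h : EJ G P Q S s4 s3) : Lnk G (XX P Q (S.erase s4)) s4 s3 := by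
  obtain ⟨Z, c⟩ := EJ.cn h
  refine ⟨insert s4 Z, Set.mem_insert _ _, c.con, ?_, c.adj⟩
  rintro z (rfl | hz) hz'
  · rcases hz' with (hz' | hz') | hz'
    · exact hp.oP _ h.1 hz'
    · exact hp.oQ _ h.1 hz'
    · simp at hz'
  · apply c.1 z hz
    rcases hz' with (hz' | hz') | hz'
    · exact Or.inl (Or.inl hz')
    · exact Or.inl (Or.inr hz')
    · refine Or.inr ?_
      have := Finset.mem_coe.mp hz'
      exact Finset.mem_coe.mpr (Finset.mem_of_mem_erase this)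

theorem pe4 (h3 : PE3Stmt) : PE4Stmt := by
  intro V G P Q S hG hp hc s1 s2 s3 s4 n13 n24 e12 e23 e34 e41
  have sub : S.erase s4 ⊆ S := Finset.erase_subset _ _
  have n34 := e34.2.2.1
  have n41 := e41.2.2.1
  have m1 : s1 ∈ S.erase s4 := Finset.mem_erase.mpr ⟨n41.symm, e12.1⟩
  have m2 : s2 ∈ S.erase s4 := Finset.mem_erase.mpr ⟨n24, e12.2.1⟩
  have m3 : s3 ∈ S.erase s4 := Finset.mem_erase.mpr ⟨n34, e34.1⟩
  refine h3 V G P Q (S.erase s4) hG (Pol.sub sub hp) ?_ s1 s2 s3 (EJ.sub sub m1 m2 e12)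
    (EJ.sub sub m2 m3 e23) ⟨m3, m1, n13.symm, Or.inr ⟨s4, lk4 hp (EJ.symm' e34), lk4 hp e41⟩⟩
  rcases hc with hc | hc
  · exact Or.inl hc
  · refine Or.inr ?_
    rw [Finset.card_erase_of_mem e34.2.1]
    omega

end Pool.Agent.H7.RCQ.PE4
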